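import Pool.Agent.Helper26.RP.Goals

/-!
# Packet CUB (MP_105b7b_pr): the upper growth rate and cuts
-/

noncomputable section

namespace RP.PkCUB

open MeasureTheory Filter Topology

theorem ar_pos {K : Set E} (hK : Body K) : 0 < ar K := by
  unfold ar
  apply ENNReal.toReal_pos
  · have h1 : 0 < volume (interior K) := isOpen_interior.measure_pos volume hK.int
    exact (h1.trans_le (measure_mono interior_subset)).ne'
  · exact hK.cpt.measure_lt_top.ne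

/-- The arithmetic of the choice of `b`. -/
theorem choice {A1 A2 : ℝ} (h1 : 0 < A1) (h2 : 0 < A2) (a : ℕ) :
    0 ≤ (a : ℝ) - A1 / (A1 + A2) * (a + (⌊(a : ℝ) * (A2 / A1)⌋₊ : ℕ)) ∧
    (a : ℝ) - A1 / (A1 + A2) * (a + (⌊(a : ℝ) * (A2 / A1)⌋₊ : ℕ)) ≤ 1 := by
  have h3 : (0 : ℝ) ≤ (a : ℝ) * (A2 / A1) := by positivity
  have h4 := Nat.floor_le h3
  have h5 := Nat.lt_floor_add_one ((a : ℝ) * (A2 / A1))
  set b : ℝ := ((⌊(a : ℝ) * (A2 / A1)⌋₊ : ℕ) : ℝ) with hb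
  have e1 : (a : ℝ) - A1 / (A1 + A2) * (a + b) = A1 / (A1 + A2) * ((a : ℝ) * (A2 / A1) - b) := by
    field_simp
    ring
  have h6 : 0 < A1 / (A1 + A2) := by positivity
  have h7 : A1 / (A1 + A2) ≤ 1 := by
    rw [div_le_one (by linarith)]; linarith
  rw [e1]
  constructor
  · exact mul_nonneg h6.le (by linarith)
  · calc A1 / (A1 + A2) * ((a : ℝ) * (A2 / A1) - b) ≤ 1 * 1 :=
          mul_le_mul h7 (by linarith) (by linarith) (by norm_num)
      _ = 1 := by ring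

theorem cub : G_GCL → G_DEG → G_EXC → G_CUB := by
  intro hG hD _ K α β γ g hK hαβ hK1 hUB hLB
  by_cases hK2 : Body (K ∩ HR α β γ)
  swap
  · obtain ⟨-, -, -, h⟩ := (hD K α β γ hK).2 hK2
    intro ε hε
    filter_upwards [hUB ε hε] with n hn
    rw [h n]; exact hn
  obtain ⟨hsum, hgl⟩ := hG K α β γ hK hαβ hK1 hK2
  have hLB' := hLB hK2
  have hA1 := ar_pos hK1
  have hA2 := ar_pos hK2
  have hA := ar_pos hK
  intro ε hε
  by_contra hcon
  rw [Filter.not_eventually, Filter.frequently_atTop] at hcon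
  set A1 := ar (K ∩ HL α β γ) with hA1d
  set A2 := ar (K ∩ HR α β γ) with hA2d
  set θ := A1 / ar K with hθ
  have hθ0 : 0 < θ := div_pos hA1 hA
  set δ := θ * ε / 8 with hδ
  have hδ0 : 0 < δ := by positivity
  obtain ⟨η, hη, N0, hN0⟩ := hgl δ hδ0
  obtain ⟨N1, hN1⟩ := Filter.eventually_atTop.1 (hLB' δ hδ0)
  obtain ⟨N2, hN2⟩ := Filter.eventually_atTop.1 (hUB δ hδ0)
  have hr : 0 < A2 / A1 := div_pos hA2 hA1
  -- a large number
  obtain ⟨M, hM⟩ := exists_nat_ge (max (max (N0 : ℝ) N2)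
    (max (((N0 : ℝ) + N1 + 1) / (A2 / A1)) (max (1 / η) ((ε + 6 * (g + δ)) / (5 * δ) + 1))))
  obtain ⟨a, haM, ha⟩ := hcon M
  rw [not_le] at ha
  have haM' : (M : ℝ) ≤ a := by exact_mod_cast haM
  have hm := hM.trans haM'
  simp only [max_le_iff] at hm
  obtain ⟨⟨m1, m2⟩, m3, m4, m5⟩ := hm
  obtain ⟨hc1, hc2⟩ := choice hA1 hA2 a
  set b := ⌊(a : ℝ) * (A2 / A1)⌋₊ with hb
  have hbl : (a : ℝ) * (A2 / A1) < b + 1 := Nat.lt_floor_add_one _
  have m3' : (N0 : ℝ) + N1 + 1 ≤ a * (A2 / A1) := by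
    rwa [div_le_iff₀ hr] at m3
  have hbN : (N0 : ℝ) + N1 ≤ b := by linarith
  have hN0' : (0 : ℝ) ≤ N0 := Nat.cast_nonneg _
  have hN1' : (0 : ℝ) ≤ N1 := Nat.cast_nonneg _
  have hbN0 : N0 ≤ b := by
    have : (N0 : ℝ) ≤ b := by linarith
    exact_mod_cast this
  have hbN1 : N1 ≤ b := by
    have : (N1 : ℝ) ≤ b := by linarith
    exact_mod_cast this
  have haN0 : N0 ≤ a := by exact_mod_cast m1
  have haN2 : N2 ≤ a + b + 6 := by
    have : N2 ≤ a := by exact_mod_cast m2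
    omega
  have hb0 : (0 : ℝ) ≤ b := Nat.cast_nonneg _
  have ha0 : (0 : ℝ) ≤ a := Nat.cast_nonneg _
  have hθ' : θ = A1 / (A1 + A2) := by rw [hθ, ← hsum]
  rw [← hθ'] at hc1 hc2
  have hη' : 1 ≤ η * ((a : ℝ) + b) := by
    rw [div_le_iff₀ hη] at m4
    nlinarith
  have key := hN0 a b haN0 hbN0 (by
    rw [abs_of_nonneg hc1]
    exact hc2.trans hη')
  have hw2 := hN1 b hbN1
  have hwK := hN2 (a + b + 6) haN2
  have h1 : Real.exp ((g + ε) * a) * Real.exp ((g - δ) * b) * Real.exp (-δ * (a + b)) ≤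
      Real.exp ((g + δ) * ((a + b + 6 : ℕ) : ℝ)) := by
    refine le_trans ?_ (key.trans hwK)
    refine mul_le_mul_of_nonneg_right ?_ (Real.exp_pos _).le
    exact mul_le_mul ha.le hw2 (Real.exp_pos _).le ((Real.exp_pos _).le.trans ha.le)
  rw [← Real.exp_add, ← Real.exp_add, Real.exp_le_exp] at h1
  push_cast at h1
  have hδ8 : 8 * δ = θ * ε := by rw [hδ]; ring
  -- `ε a ≤ 3 δ (a + b) + 6 (g + δ)`
  have h2 : ε * a ≤ 3 * δ * (a + b) + 6 * (g + δ) := by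
    have : 0 ≤ δ * a := by positivity
    nlinarith
  -- `ε θ (a + b) ≤ ε a + ε`
  have h3 : ε * (a - θ * (a + b)) ≤ ε * 1 := by
    have h4 : ε * (θ * (a + b)) ≤ ε * a := mul_le_mul_of_nonneg_left (by linarith) hε.le
    have h5 : 0 ≤ (a : ℝ) - θ * (a + b) := hc1
    exact mul_le_mul_of_nonneg_left hc2 hε.le
  have h4 : 8 * δ * (a + b) ≤ ε * (θ * (a + b)) := by
    rw [hδ8]; apply le_of_eq; ring
  have h6 : 8 * δ * (a + b) ≤ ε * a := by
    rw [hδ8]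
    have : ε * (θ * (a + b)) ≤ ε * a := mul_le_mul_of_nonneg_left (by linarith) hε.le
    linarith
  have h7 : 5 * δ * (a + b) ≤ 6 * (g + δ) := by linarith
  have h8 : (ε + 6 * (g + δ)) / (5 * δ) + 1 ≤ a := m5
  have h9 : (ε + 6 * (g + δ)) / (5 * δ) < a := by linarith
  rw [div_lt_iff₀ (by positivity)] at h9
  have h10 : 0 ≤ 5 * δ * b := by positivity
  nlinarith

end RP.PkCUB
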