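import Pool.Agent.Helper26.RP.Goals

/-!
# Packet EXI (MP_105b7b_pr): there is a simple polygon
-/

noncomputable section

namespace RP.PkEXI

open MeasureTheory Filter Topology

theorem orient_comb (a b c d : E) {s t : ℝ} (h : s + t = 1) :
    orient a b (s • c + t • d) = s * orient a b c + t * orient a b d := by
  have hs : s = 1 - t := by linarith
  subst hs
  simp only [orient, Prod.fst_add, Prod.snd_add, Prod.smul_fst, Prod.smul_snd, smul_eq_mul]
  ring

theorem orient_left (a b : E) : orient a b a = 0 := by
  simp only [orient]; ring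

theorem orient_right (a b : E) : orient a b b = 0 := by
  simp only [orient]; ring

theorem orient_swap (a b c : E) : orient a c b = -orient a b c := by
  simp only [orient]; ring

theorem sep1 {u v a b c d : E} (ha : orient u v a < 0) (hb : orient u v b ≤ 0)
    (hc : 0 < orient u v c) (hd : 0 ≤ orient u v d) (hbd : b ≠ d) :
    Disjoint (segment ℝ a b) (segment ℝ c d) := by
  rw [Set.disjoint_left]
  rintro p ⟨s, t, hs, ht, hst, rfl⟩ ⟨s', t', hs', ht', hst', he⟩
  have h1 := orient_comb u v a b hst
  have h2 := orient_comb u v c d hst'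
  rw [he] at h2
  have h3 : s * orient u v a ≤ 0 := mul_nonpos_of_nonneg_of_nonpos hs ha.le
  have h4 : t * orient u v b ≤ 0 := mul_nonpos_of_nonneg_of_nonpos ht hb
  have h5 : 0 ≤ s' * orient u v c := mul_nonneg hs' hc.le
  have h6 : 0 ≤ t' * orient u v d := mul_nonneg ht' hd
  have h7 : s * orient u v a = 0 := by linarith
  have h8 : s' * orient u v c = 0 := by linarith
  have h9 : s = 0 := (mul_eq_zero.1 h7).resolve_right ha.ne
  have h10 : s' = 0 := (mul_eq_zero.1 h8).resolve_right hc.ne'
  have h11 : t = 1 := by linarith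
  have h12 : t' = 1 := by linarith
  rw [h9, h10, h11, h12] at he
  simp only [zero_smul, one_smul, zero_add] at he
  exact hbd he.symm

theorem sep2 {u v a b c d : E} (ha : orient u v a ≤ 0) (hb : orient u v b ≤ 0)
    (hc : 0 < orient u v c) (hd : 0 < orient u v d) :
    Disjoint (segment ℝ a b) (segment ℝ c d) := by
  rw [Set.disjoint_left]
  rintro p ⟨s, t, hs, ht, hst, rfl⟩ ⟨s', t', hs', ht', hst', he⟩
  have h1 := orient_comb u v a b hst
  have h2 := orient_comb u v c d hst'
  rw [he] at h2
  have h3 : s * orient u v a ≤ 0 := mul_nonpos_of_nonneg_of_nonpos hs ha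
  have h4 : t * orient u v b ≤ 0 := mul_nonpos_of_nonneg_of_nonpos ht hb
  rcases lt_or_ge 0 s' with h | h
  · have h5 : 0 < s' * orient u v c := mul_pos h hc
    have h6 : 0 ≤ t' * orient u v d := mul_nonneg ht' hd.le
    linarith
  · have h' : s' = 0 := le_antisymm h hs'
    have h12 : t' = 1 := by linarith
    rw [h', h12] at h2
    linarith

theorem NX_symm {a b c d : E} (h : NX a b c d) : NX c d a b := by
  rcases h with (h | h | h | h) | h
  · exact Or.inl (Or.inl h.symm)
  · exact Or.inl (Or.inr (Or.inr (Or.inl h.symm)))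
  · exact Or.inl (Or.inr (Or.inl h.symm))
  · exact Or.inl (Or.inr (Or.inr (Or.inr h.symm)))
  · exact Or.inr h.symm

theorem rot_cases {m : ℕ} (i : Fin (m + 3)) :
    (i.val + 1 < m + 3 ∧ (finRotate (m + 3) i).val = i.val + 1) ∨
      (i.val + 1 = m + 3 ∧ finRotate (m + 3) i = 0) := by
  rcases Nat.lt_or_ge (i.val + 1) (m + 3) with h | h
  · left
    refine ⟨h, ?_⟩
    rw [finRotate_apply, Fin.val_add_one_of_lt]
    rw [Fin.lt_def, Fin.val_last]
    omega
  · right
    have h1 : i = Fin.last (m + 2) := by
      apply Fin.ext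
      rw [Fin.val_last]
      have := i.isLt
      omega
    refine ⟨by have := i.isLt; omega, ?_⟩
    rw [h1, finRotate_last]

/-- A star-shaped order gives a simple polygon. -/
theorem star {m : ℕ} (y : Fin (m + 3) → E) (hinj : Function.Injective y)
    (h : ∀ i j : Fin (m + 3), 0 < i → i < j → 0 < orient (y 0) (y i) (y j))
    (i j : Fin (m + 3)) (hij : i < j) :
    NX (y i) (y (finRotate (m + 3) i)) (y j) (y (finRotate (m + 3) j)) := by
  obtain ⟨hi1, hi2⟩ : i.val + 1 < m + 3 ∧ (finRotate (m + 3) i).val = i.val + 1 := by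
    rcases rot_cases i with h1 | h1
    · exact h1
    · have := j.isLt
      rw [Fin.lt_def] at hij
      omega
  by_cases hk : finRotate (m + 3) i = j
  · exact Or.inl (Or.inr (Or.inr (Or.inl (by rw [hk]))))
  have hkj : finRotate (m + 3) i < j := by
    rw [Fin.lt_def, hi2]
    rw [Fin.lt_def] at hij
    have : (finRotate (m + 3) i).val ≠ j.val := fun h => hk (Fin.ext h)
    omega
  have hk0 : 0 < finRotate (m + 3) i := by
    rw [Fin.lt_def, hi2]; simp
  have hj := h _ j hk0 hkj
  by_cases hi : i = 0
  · rcases rot_cases j with ⟨hj1, hj2⟩ | ⟨hj1, hj2⟩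
    · right
      have hrj : finRotate (m + 3) i < finRotate (m + 3) j := by
        rw [Fin.lt_def, hj2]
        rw [Fin.lt_def] at hkj
        omega
      have hj' := h _ _ hk0 hrj
      refine sep2 (u := y 0) (v := y (finRotate (m + 3) i)) ?_ ?_ hj hj'
      · rw [hi]; exact (orient_left _ _).le
      · exact (orient_right _ _).le
    · left; right; left
      rw [hj2, hi]
  · right
    have hi0 : 0 < i := Fin.pos_iff_ne_zero.2 hi
    have hik : i < finRotate (m + 3) i := by rw [Fin.lt_def, hi2]; omega
    have h1 := h i _ hi0 hik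
    refine sep1 (u := y 0) (v := y (finRotate (m + 3) i)) ?_ ?_ hj ?_ ?_
    · rw [orient_swap]; linarith
    · exact (orient_right _ _).le
    · rcases rot_cases j with ⟨hj1, hj2⟩ | ⟨hj1, hj2⟩
      · have hrj : finRotate (m + 3) i < finRotate (m + 3) j := by
          rw [Fin.lt_def, hj2]
          rw [Fin.lt_def] at hkj
          omega
        exact (h _ _ hk0 hrj).le
      · rw [hj2]; exact (orient_left _ _).ge
    · intro he
      have h2 := (finRotate (m + 3)).injective (hinj he)
      exact hij.ne h2

theorem exi : G_EXI := by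
  intro n x hn hGP hab
  obtain ⟨m, rfl⟩ : ∃ m, n = m + 3 := ⟨n - 3, by omega⟩
  have hxinj : Function.Injective x := fun i j h => hab (by simp only [h])
  obtain ⟨q, hq⟩ := Finite.exists_min (fun i => (x i).1)
  have hq' : ∀ i, i ≠ q → (x q).1 < (x i).1 := fun i hi =>
    lt_of_le_of_ne (hq i) (fun h => hi (hab h.symm))
  -- the key
  set μ : Fin (m + 3) → ℝ := fun i => ((x i).2 - (x q).2) / ((x i).1 - (x q).1) with hμ
  set κ : Fin (m + 3) → ℝ := fun i => if i = q then -10 else Real.arctan (μ i) with hκ
  have horient : ∀ i j, i ≠ q → j ≠ q → orient (x q) (x i) (x j) =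
      ((x i).1 - (x q).1) * ((x j).1 - (x q).1) * (μ j - μ i) := by
    intro i j hi hj
    have h1 : (x i).1 - (x q).1 ≠ 0 := by have := hq' i hi; linarith
    have h2 : (x j).1 - (x q).1 ≠ 0 := by have := hq' j hj; linarith
    simp only [orient, hμ]
    field_simp
  have hlow : ∀ i, i ≠ q → -10 < κ i := by
    intro i hi
    simp only [hκ, if_neg hi]
    have h1 := Real.neg_pi_div_two_lt_arctan (μ i)
    have h2 := Real.pi_lt_four
    linarith
  have hκq : κ q = -10 := by simp [hκ]
  have hκinj : Function.Injective κ := by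
    intro i j hij
    by_cases hi : i = q
    · by_cases hj : j = q
      · rw [hi, hj]
      · have := hlow j hj
        rw [← hij, hi, hκq] at this
        exact absurd this (lt_irrefl _)
    · by_cases hj : j = q
      · have := hlow i hi
        rw [hij, hj, hκq] at this
        exact absurd this (lt_irrefl _)
      · by_contra hne
        simp only [hκ, if_neg hi, if_neg hj] at hij
        have h1 := Real.arctan_injective hij
        have h2 := hGP q i j (Ne.symm hi) hne (Ne.symm hj)
        apply h2
        rw [horient i j hi hj, h1]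
        ring
  refine ⟨Tuple.sort κ, ?_, ?_⟩
  · intro i j k hij hjk hik
    exact hGP _ _ _ (fun h => hij ((Tuple.sort κ).injective h))
      (fun h => hjk ((Tuple.sort κ).injective h)) (fun h => hik ((Tuple.sort κ).injective h))
  have hmono : StrictMono (κ ∘ Tuple.sort κ) :=
    (Tuple.monotone_sort κ).strictMono_of_injective
      (hκinj.comp (Tuple.sort κ).injective)
  have h0 : Tuple.sort κ 0 = q := by
    by_contra hne
    have h1 := hlow _ hne
    have h2 : (κ ∘ Tuple.sort κ) 0 ≤ (κ ∘ Tuple.sort κ) ((Tuple.sort κ).symm q) :=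
      hmono.monotone (Fin.zero_le _)
    simp only [Function.comp, Equiv.apply_symm_apply] at h2
    rw [hκq] at h2
    linarith
  have hne : ∀ i, 0 < i → Tuple.sort κ i ≠ q := by
    intro i hi h
    rw [← h0] at h
    exact hi.ne' ((Tuple.sort κ).injective h)
  have hyinj : Function.Injective (x ∘ Tuple.sort κ) := hxinj.comp (Tuple.sort κ).injective
  have hstar : ∀ i j : Fin (m + 3), 0 < i → i < j →
      0 < orient ((x ∘ Tuple.sort κ) 0) ((x ∘ Tuple.sort κ) i) ((x ∘ Tuple.sort κ) j) := by
    intro i j hi hij
    have hi' := hne i hi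
    have hj' := hne j (hi.trans hij)
    simp only [Function.comp]
    rw [h0, horient _ _ hi' hj']
    have h1 : κ (Tuple.sort κ i) < κ (Tuple.sort κ j) := hmono hij
    have h5 : ∀ i, i ≠ q → κ i = Real.arctan (μ i) := fun i hi => by simp only [hκ, if_neg hi]
    rw [h5 _ hi', h5 _ hj'] at h1
    have h2 := Real.arctan_strictMono.lt_iff_lt.1 h1
    have h3 := hq' _ hi'
    have h4 := hq' _ hj'
    exact mul_pos (mul_pos (by linarith) (by linarith)) (by linarith)
  intro i j
  rcases lt_trichotomy i j with hij | hij | hij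
  · exact star _ hyinj hstar i j hij
  · subst hij
    exact Or.inl (Or.inl rfl)
  · exact NX_symm (star _ hyinj hstar j i hij)

end RP.PkEXI
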